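import Mathlib
import Pool.Agent.H.MP_2757db_lc.A
import Pool.Agent.H.MP_2757db_lc.B
import Pool.Agent.H.MP_2757db_lc.C

set_option autoImplicit false

namespace Pool.Agent.Results.MP_2757db_lc.Indep

open Set Filter Topology Function TopologicalSpace Pool.Agent.H.MP_2757db_lc.A

@[ext] structure N {S : Type} (τ : S → Bool) where
  b : Bool
  t : S
  n : ℕ
  h : n = 0 ∨ τ t = b

variable {S : Type} [PartialOrder S]

@[reducible] def po (τ : S → Bool) (k : S → S → ℕ) (hk : ∀ t u v, t < u → u ≤ v → k t u = k t v) :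
    PartialOrder (N τ) where
  le p q := p.b = q.b ∧ ((p.t = q.t ∧ p.n ≤ q.n) ∨ (p.t < q.t ∧ p.n ≤ k p.t q.t))
  le_refl p := ⟨rfl, .inl ⟨rfl, le_rfl⟩⟩
  le_trans := by
    rintro p q r ⟨a, ⟨b, c⟩ | ⟨b, c⟩⟩ ⟨a', ⟨b', c'⟩ | ⟨b', c'⟩⟩
    · exact ⟨a.trans a', .inl ⟨b.trans b', c.trans c'⟩⟩
    · exact ⟨a.trans a', .inr ⟨b ▸ b', b ▸ c.trans c'⟩⟩
    · exact ⟨a.trans a', .inr ⟨b' ▸ b, b' ▸ c⟩⟩
    · exact ⟨a.trans a', .inr ⟨b.trans b', hk _ _ _ b b'.le ▸ c⟩⟩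
  le_antisymm := by
    rintro p q ⟨a, ⟨b, c⟩ | ⟨b, c⟩⟩ ⟨a', ⟨b', c'⟩ | ⟨b', c'⟩⟩
    · exact N.ext a b (c.antisymm c')
    · exact (b'.ne b.symm).elim
    · exact (b.ne b'.symm).elim
    · exact (b.not_gt b').elim

theorem build (hS : Suslin S) (e : S → ℕ → S) (e1 : ∀ t n, t < e t n)
    (e2 : ∀ t u, t < u → ∃ n, e t n ≤ u) (e3 : ∀ t n m, e t n ≤ e t m → n = m) :
    ∃ (T : Type) (_ : PartialOrder T), Suslin T ∧ Lind T ∧ ¬ LindProd T T := by
  classical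
  have : ∀ t u, ∃ n, t < u → e t n ≤ u := fun t u => by
    by_cases l : t < u
    · obtain ⟨n, h⟩ := e2 t u l; exact ⟨n, fun _ => h⟩
    · exact ⟨0, fun k => (l k).elim⟩
  choose k k1 using this
  have k2 : ∀ t n u, e t n ≤ u → k t u = n := fun t n u l =>
    (hS.1.cmp (k1 t u ((e1 t n).trans_le l)) l).elim (e3 _ _ _) fun h => (e3 _ _ _ h).symm
  have hk : ∀ t u v, t < u → u ≤ v → k t u = k t v := fun t u v a b =>
    (k2 _ _ _ ((k1 t u a).trans b)).symm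
  have imm : ∀ t n v, v < e t n → v ≤ t := fun t n v l =>
    (hS.1.cmp l.le (e1 t n).le).elim id fun h => h.eq_or_lt.elim Eq.ge fun h => by
      cases e3 _ _ _ ((k1 t v h).trans l.le)
      exact (l.not_ge (k1 t v h)).elim
  let τ : S → Bool := fun u => decide (∃ t, u = e t 0)
  have ty : ∀ t b, ∃ u, t < u ∧ τ u ≠ b := fun t b => by
    cases b
    · exact ⟨e t 0, e1 _ _, by simpa [τ] using ⟨t, rfl⟩⟩
    · refine ⟨e t 1, e1 _ _, ?_⟩
      simp only [τ, ne_eq, decide_eq_true_eq, not_exists]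
      intro s hs
      cases (imm t 1 s (hs ▸ e1 s 0)).antisymm (imm s 0 t (hs ▸ e1 t 1))
      cases e3 _ _ _ hs.le
  letI := po τ k hk
  have le : ∀ {p q : N τ}, p ≤ q ↔
    p.b = q.b ∧ ((p.t = q.t ∧ p.n ≤ q.n) ∨ (p.t < q.t ∧ p.n ≤ k p.t q.t)) := Iff.rfl
  have lt : ∀ {p q : N τ}, p ≤ q → p.t ≤ q.t := fun h => h.2.elim (·.1.le) (·.1.le)
  let d : Bool → S → N τ := fun b t => ⟨b, t, 0, .inl rfl⟩
  have dl : ∀ {b t} {q : N τ}, b = q.b → t ≤ q.t → d b t ≤ q := fun h l =>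
    ⟨h, l.eq_or_lt.imp (⟨·, Nat.zero_le _⟩) (⟨·, Nat.zero_le _⟩)⟩
  have tr : IsTree (N τ) := tree_of
    (Subrelation.wf (q := fun p q : N τ => p < q) (fun {p q} h => by
      rcases h.le with ⟨a, ⟨b, c⟩ | ⟨b, c⟩⟩
      · exact Prod.lex_def.2 (.inr ⟨b, lt_of_le_of_ne c fun x => h.ne (N.ext a b x)⟩)
      · exact Prod.lex_def.2 (.inl b))
      (InvImage.wf (fun p : N τ => (p.t, p.n)) (hS.1.wf.prod_lex wellFounded_lt))) <| by
    have : ∀ p q r : N τ, p ≤ r → q ≤ r → p.t < q.t → p ≤ q := fun p q r a b l =>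
      ⟨a.1.trans b.1.symm, .inr ⟨l, hk _ _ _ l (lt b) ▸
        (a.2.resolve_left fun h => (l.trans_le (lt b)).ne h.1).2⟩⟩
    intro p q r a b
    by_cases x : p.t = q.t
    · exact (le_total p.n q.n).imp (fun h => ⟨a.1.trans b.1.symm, .inl ⟨x, h⟩⟩)
        fun h => ⟨b.1.trans a.1.symm, .inl ⟨x.symm, h⟩⟩
    · exact (hS.1.cmp (lt a) (lt b)).imp (fun h => this p q r a b (lt_of_le_of_ne h x))
        fun h => this q p r b a (lt_of_le_of_ne h (Ne.symm x))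
  have cnt : ∀ {X : Set S}, X.Countable → {p : N τ | p.t ∈ X}.Countable := fun {X} hX =>
    countable_of_injective_of_countable_image (f := fun p => (p.b, p.t, p.n))
      (fun p _ q _ h => by simp only [Prod.mk.injEq] at h; exact N.ext h.1 h.2.1 h.2.2)
      ((countable_univ.prod (hX.prod countable_univ)).mono (by
        rintro _ ⟨p, hp, rfl⟩; exact ⟨trivial, hp, trivial⟩))
  haveI := hS.2.1
  have up : ∀ p : N τ, p ≤ d p.b (e p.t p.n) := fun p =>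
    ⟨rfl, .inr ⟨e1 _ _, (k2 _ _ _ le_rfl).ge⟩⟩
  refine ⟨N τ, _, ⟨tr, (show Injective (d true) from fun _ _ h => congrArg N.t h).uncountable,
    fun C hC => (cnt (hS.2.2.1 (N.t '' C) ?_)).mono fun p hp => mem_image_of_mem N.t hp, fun A hA => ?_⟩,
    lind_of tr fun F F1 F2 => ?_, fun hL => ?_⟩
  · rintro _ ⟨p, hp, rfl⟩ _ ⟨q, hq, rfl⟩ _
    exact (hC.total hp hq).imp lt lt
  · have k : ∀ p ∈ A, ∀ q ∈ A, p.b = q.b → e p.t p.n ≤ e q.t q.n → p = q := fun p hp q hq h l => by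
      by_contra ne
      exact (tr.cmp ((up p).trans (dl (q := d q.b (e q.t q.n)) h l)) (up q)).elim (hA hp hq ne) (hA hq hp (Ne.symm ne))
    refine (countable_iUnion fun b : Bool => countable_of_injective_of_countable_image
      (s := {p ∈ A | p.b = b}) (f := fun p => e p.t p.n)
      (fun p hp q hq h => k p hp.1 q hq.1 (hp.2.trans hq.2.symm) h.le) (hS.2.2.2 _ ?_)).mono
      fun p hp => mem_iUnion.2 ⟨p.b, And.intro hp rfl⟩
    rintro _ ⟨p, hp, rfl⟩ _ ⟨q, hq, rfl⟩ ne l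
    cases k p hp.1 q hq.1 (hp.2.trans hq.2.symm) l
    exact ne rfl
  · refine (cnt (countable_iUnion fun b : Bool => (?_ : {t | d b t ∈ W F}.Countable))).mono
      fun p hp => show p.t ∈ ⋃ b : Bool, {t | d b t ∈ W F} from
        mem_iUnion.2 ⟨p.b, W_low tr F hp (dl rfl le_rfl)⟩
    by_contra hc
    obtain ⟨t, ht⟩ := hS.cone hc fun u v l hu => W_low tr F hu (dl rfl l)
    obtain ⟨u, u1, u2⟩ := ty t b
    have : ∀ n, ∃ y ∈ F (d b u), e u n ≤ y.t := fun n => by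
      obtain ⟨y, y1, y2 | y2⟩ := ht (u1.trans (e1 u n)).le (d b u)
        (lt_of_le_not_ge (dl rfl (e1 u n).le) fun h => (e1 u n).not_ge (lt h))
      · refine ⟨y, y1, ?_⟩
        rcases y2 with ⟨a, ⟨c, _⟩ | ⟨c, c'⟩⟩
        · exact c.ge
        · refine (F2 _ y y1 ⟨a, (imm u n _ c).eq_or_lt.imp (fun x => ⟨x, ?_⟩)
            fun x => ⟨x, (hk _ _ _ x (e1 u n).le).symm ▸ c'⟩⟩).elim
          exact (y.h.resolve_right fun h => u2 ((congrArg τ x).symm.trans (h.trans a))).le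
      · exact ⟨y, y1, lt y2⟩
    choose y y1 y2 using this
    exact (infinite_of_injective_forall_mem (f := y) (fun n m h =>
      (k2 _ _ _ (y2 n)).symm.trans (h ▸ k2 _ _ _ (y2 m))) y1) (F1 _)
  · letI := fw (N τ)
    haveI : LindelofSpace (N τ × N τ) := hL
    have iso : ∀ x : N τ, τ x.t = x.b → ∃ U, IsOpen U ∧ x ∈ U ∧ ∀ b u, d b u ∈ U → u = x.t :=
      fun x hx => by
        refine ⟨B x {⟨x.b, x.t, x.n + 1, .inr hx⟩, d x.b (e x.t x.n)}, oB _ (toFinite _),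
          ⟨le_rfl, ?_⟩, fun b u ⟨⟨a, h⟩, h'⟩ => ?_⟩
        · rintro _ (rfl | rfl) h
          · rcases h.2 with ⟨_, h⟩ | ⟨h, _⟩
            exacts [Nat.not_succ_le_self _ h, lt_irrefl _ h]
          · exact (e1 _ _).not_ge (lt h)
        · rcases h with ⟨h, _⟩ | ⟨h, l⟩
          · exact h.symm
          · rcases l.eq_or_lt with l | l
            · exact (h' _ (.inr rfl) (dl a (l ▸ k1 _ _ h))).elim
            · exact (h' _ (.inl rfl) ⟨a, .inr ⟨h, l⟩⟩).elim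
    have : ∀ p : N τ × N τ, ∃ U, IsOpen U ∧ p ∈ U ∧ ∃ s, ∀ u, (d false u, d true u) ∈ U → u = s := by
      rintro ⟨x, y⟩
      by_cases h1 : τ x.t = x.b
      · obtain ⟨U, a, b, c⟩ := iso x h1
        exact ⟨U ×ˢ univ, a.prod isOpen_univ, ⟨b, trivial⟩, _, fun u h => c _ _ h.1⟩
      by_cases h2 : τ y.t = y.b
      · obtain ⟨U, a, b, c⟩ := iso y h2
        exact ⟨univ ×ˢ U, isOpen_univ.prod a, ⟨trivial, b⟩, _, fun u h => c _ _ h.2⟩
      by_cases h3 : x.t < y.t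
      · exact ⟨(Ici (d x.b (e x.t (k x.t y.t))))ᶜ ×ˢ Ici y ∩ Ici x ×ˢ univ,
          ((oC _).prod (oI _)).inter ((oI _).prod isOpen_univ),
          ⟨⟨fun h => (e1 _ _).not_ge (lt h), le_refl y⟩, le_refl x, trivial⟩, x.t, fun u h =>
          (h.1.1 (dl h.2.1.1 ((k1 _ _ h3).trans (lt (q := d true u) h.1.2)))).elim⟩
      by_cases h4 : y.t < x.t
      · exact ⟨Ici x ×ˢ (Ici (d y.b (e y.t (k y.t x.t))))ᶜ ∩ univ ×ˢ Ici y,
          ((oI _).prod (oC _)).inter (isOpen_univ.prod (oI _)),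
          ⟨⟨le_refl x, fun h => (e1 _ _).not_ge (lt h)⟩, trivial, le_refl y⟩, x.t, fun u h =>
          (h.1.2 (dl h.2.2.1 ((k1 _ _ h4).trans (lt (q := d false u) h.1.1)))).elim⟩
      refine ⟨Ici x ×ˢ Ici y, (oI _).prod (oI _), ⟨le_refl x, le_refl y⟩, x.t, fun u h => ?_⟩
      have e0 : x.t = y.t := (hS.1.cmp (lt (q := d false u) h.1) (lt (q := d true u) h.2)).elim (·.eq_of_not_lt h3)
        fun l => (l.eq_of_not_lt h4).symm
      have a : x.b = false := h.1.1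
      have b : y.b = true := h.2.1
      rw [a] at h1; rw [b, ← e0] at h2
      cases hb : τ x.t
      exacts [(h1 hb).elim, (h2 hb).elim]
    choose U a b s hs using this
    obtain ⟨I, I1, I2⟩ := isLindelof_univ.elim_countable_subcover U a
      fun p _ => mem_iUnion.2 ⟨p, b p⟩
    refine not_countable_univ ((I1.image s).mono fun u _ => ?_)
    obtain ⟨p, p1, p2⟩ := mem_iUnion₂.1 (I2 (mem_univ (d false u, d true u)))
    exact ⟨p, p1, (hs p u p2).symm⟩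

theorem result :
    (MA → ∀ (T T' : Type) [PartialOrder T] [PartialOrder T'], IsTree T → IsTree T' →
      Lind T → Lind T' → LindProd T T') ∧
    ((∃ (S : Type) (_ : PartialOrder S), Suslin S) →
      ∃ (T : Type) (_ : PartialOrder T), Suslin T ∧ Lind T ∧ ¬ LindProd T T) := by
  refine ⟨fun ma T T' _ _ h h' l l' => prod_of h h' l' (W_ma ma h l), fun ⟨S, _, hS⟩ => ?_⟩
  obtain ⟨L, e, a, b, c, d⟩ := hS.normal
  exact build a e b c d

end Pool.Agent.Results.MP_2757db_lc.Indep
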